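import Mathlib
import Pool.Agent.R151.Cell

/-!
# The coverable spacings of the square lattice do not form an interval
-/

namespace Pool.Agent.Results.MP_bcdb6f_co.NotInterval

open MeasureTheory Metric

/-- The square lattice `d ℤ²` in the Euclidean plane. -/
def squareLattice (d : ℝ) : Set (EuclideanSpace ℝ (Fin 2)) :=
  {p | ∃ a b : ℤ, p = !₂[d * (a : ℝ), d * (b : ℝ)]}

/-- `d ℤ²` is coverable: there is a set `C` of centres such that the closed unit disks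
around the points of `C` have pairwise disjoint interiors and every point of `d ℤ²` lies in
one of these disks. -/
def Coverable (d : ℝ) : Prop :=
  ∃ C : Set (EuclideanSpace ℝ (Fin 2)),
    (∀ x ∈ C, ∀ y ∈ C, x ≠ y →
      Disjoint (interior (closedBall x 1)) (interior (closedBall y 1))) ∧
    ∀ p ∈ squareLattice d, ∃ c ∈ C, p ∈ closedBall c 1

/-! ### Disjointness of the interiors -/

lemma disjoint_iff (x y : EuclideanSpace ℝ (Fin 2)) :
    Disjoint (interior (closedBall x 1)) (interior (closedBall y 1)) ↔ 2 ≤ dist x y := by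
  rw [interior_closedBall x one_ne_zero, interior_closedBall y one_ne_zero,
    disjoint_ball_ball_iff one_pos one_pos]
  norm_num

/-! ### Lattice points in a disk -/

/-- The seventeen candidate points. -/
def U : Finset (ℤ × ℤ) :=
  {(-1, -1), (0, -1), (1, -1), (-1, 0), (0, 0), (1, 0), (-1, 1), (0, 1), (1, 1),
   (2, -1), (2, 0), (2, 1), (-1, 2), (0, 2), (1, 2), (-2, 0), (0, -2)}

lemma mem_U {α β : ℝ} (hα : 0 ≤ α) (hα' : α ≤ 1 / 2) (hβ : 0 ≤ β) (hβ' : β ≤ 1 / 2)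
    (a b : ℤ) (h : ((a : ℝ) - α) ^ 2 + ((b : ℝ) - β) ^ 2 < 17 / 4) : (a, b) ∈ U := by
  have ha1 : a ≤ 2 := by
    by_contra hc
    have : (3 : ℝ) ≤ a := by exact_mod_cast (by omega : (3 : ℤ) ≤ a)
    nlinarith [sq_nonneg ((b : ℝ) - β)]
  have ha2 : -2 ≤ a := by
    by_contra hc
    have : (a : ℝ) ≤ -3 := by exact_mod_cast (by omega : a ≤ (-3 : ℤ))
    nlinarith [sq_nonneg ((b : ℝ) - β)]
  have hb1 : b ≤ 2 := by
    by_contra hc
    have : (3 : ℝ) ≤ b := by exact_mod_cast (by omega : (3 : ℤ) ≤ b)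
    nlinarith [sq_nonneg ((a : ℝ) - α)]
  have hb2 : -2 ≤ b := by
    by_contra hc
    have : (b : ℝ) ≤ -3 := by exact_mod_cast (by omega : b ≤ (-3 : ℤ))
    nlinarith [sq_nonneg ((a : ℝ) - α)]
  interval_cases a <;> interval_cases b <;> first
    | (simp [U]; done)
    | (exfalso; push_cast at h; nlinarith)

lemma card_le_aux {α β : ℝ} (hα : 0 ≤ α) (hα' : α ≤ 1 / 2) (hβ : 0 ≤ β) (hβ' : β ≤ 1 / 2)
    (T : Finset (ℤ × ℤ))
    (hT : ∀ p ∈ T, ((p.1 : ℝ) - α) ^ 2 + ((p.2 : ℝ) - β) ^ 2 < 17 / 4) : T.card ≤ 14 := by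
  have hU : T ⊆ U := fun p hp => mem_U hα hα' hβ hβ' p.1 p.2 (hT p hp)
  have key : ∀ x y : ℤ × ℤ, (17 : ℝ) ≤ ((x.1 : ℝ) - y.1) ^ 2 + ((x.2 : ℝ) - y.2) ^ 2 →
      x ∉ T ∨ y ∉ T := by
    intro x y hxy
    by_contra hc
    push Not at hc
    have h1 := hT x hc.1
    have h2 := hT y hc.2
    nlinarith [sq_nonneg ((x.1 : ℝ) + y.1 - 2 * α), sq_nonneg ((x.2 : ℝ) + y.2 - 2 * β)]
  have fin : ∀ x y z : ℤ × ℤ, x ∉ T → y ∉ T → z ∉ T → (((U.erase x).erase y).erase z).card ≤ 14 →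
      T.card ≤ 14 := by
    intro x y z hx hy hz hc
    refine le_trans (Finset.card_le_card ?_) hc
    intro p hp
    simp only [Finset.mem_erase]
    refine ⟨?_, ?_, ?_, hU hp⟩ <;> rintro rfl <;> contradiction
  rcases key (2, -1) (-1, 2) (by norm_num) with h1 | h1 <;>
  rcases key (-2, 0) (2, 1) (by norm_num) with h2 | h2 <;>
  rcases key (0, -2) (1, 2) (by norm_num) with h3 | h3 <;>
  exact fin _ _ _ h1 h2 h3 (by decide)

lemma card_le_14 (x y : ℝ) (S : Finset (ℤ × ℤ))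
    (hS : ∀ p ∈ S, ((p.1 : ℝ) - x) ^ 2 + ((p.2 : ℝ) - y) ^ 2 < 17 / 4) : S.card ≤ 14 := by
  have hx := abs_sub_round x
  have hy := abs_sub_round y
  obtain ⟨s, hs, hs'⟩ : ∃ s : ℤ, (s = 1 ∨ s = -1) ∧ 0 ≤ (s : ℝ) * (x - round x) := by
    rcases le_total 0 (x - round x) with h | h
    · exact ⟨1, Or.inl rfl, by simpa using h⟩
    · exact ⟨-1, Or.inr rfl, by push_cast; linarith⟩
  obtain ⟨t, ht, ht'⟩ : ∃ s : ℤ, (s = 1 ∨ s = -1) ∧ 0 ≤ (s : ℝ) * (y - round y) := by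
    rcases le_total 0 (y - round y) with h | h
    · exact ⟨1, Or.inl rfl, by simpa using h⟩
    · exact ⟨-1, Or.inr rfl, by push_cast; linarith⟩
  rw [abs_le] at hx hy
  have hs2 : (s : ℝ) * (x - round x) ≤ 1 / 2 := by
    rcases hs with rfl | rfl <;> push_cast <;> linarith
  have ht2 : (t : ℝ) * (y - round y) ≤ 1 / 2 := by
    rcases ht with rfl | rfl <;> push_cast <;> linarith
  have hinj : Function.Injective (fun p : ℤ × ℤ => (s * (p.1 - round x), t * (p.2 - round y))) := by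
    intro p q hpq
    simp only [Prod.mk.injEq] at hpq
    rcases hs with rfl | rfl <;> rcases ht with rfl | rfl <;>
      exact Prod.ext (by linarith [hpq.1]) (by linarith [hpq.2])
  rw [← Finset.card_image_of_injective S hinj]
  refine card_le_aux hs' hs2 ht' ht2 _ ?_
  intro p hp
  obtain ⟨q, hq, rfl⟩ := Finset.mem_image.mp hp
  have h := hS q hq
  have hs1 : (s : ℝ) ^ 2 = 1 := by rcases hs with rfl | rfl <;> norm_num
  have ht1 : (t : ℝ) ^ 2 = 1 := by rcases ht with rfl | rfl <;> norm_num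
  push_cast
  have e1 : ((s : ℝ) * ((q.1 : ℝ) - round x) - s * (x - round x)) ^ 2 = ((q.1 : ℝ) - x) ^ 2 := by
    have : (s : ℝ) * ((q.1 : ℝ) - round x) - s * (x - round x) = s * ((q.1 : ℝ) - x) := by ring
    rw [this, mul_pow, hs1, one_mul]
  have e2 : ((t : ℝ) * ((q.2 : ℝ) - round y) - t * (y - round y)) ^ 2 = ((q.2 : ℝ) - y) ^ 2 := by
    have : (t : ℝ) * ((q.2 : ℝ) - round y) - t * (y - round y) = t * ((q.2 : ℝ) - y) := by ring
    rw [this, mul_pow, ht1, one_mul]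
  rw [e1, e2]
  exact h

/-! ### The area argument -/

open Pool.Agent.R151.Cell

/-- A large square in `ℂ`. -/
def box (M : ℝ) : Set ℂ := {z | |z.re| ≤ M ∧ |z.im| ≤ M}

lemma volume_box {M : ℝ} (hM : 0 ≤ M) : volume (box M) = ENNReal.ofReal ((2 * M) ^ 2) := by
  have hmp := Complex.volume_preserving_equiv_real_prod
  have e : box M = Complex.measurableEquivRealProd ⁻¹' (Set.Icc (-M) M ×ˢ Set.Icc (-M) M) := by
    ext z
    simp only [box, Set.mem_ofPred_eq, Set.mem_preimage, Complex.measurableEquivRealProd_apply,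
      Set.mem_prod, Set.mem_Icc, abs_le]
  rw [e, hmp.measure_preimage (measurableSet_Icc.prod measurableSet_Icc).nullMeasurableSet,
    Measure.volume_eq_prod, Measure.prod_prod, Real.volume_Icc, ← ENNReal.ofReal_mul (by linarith)]
  congr 1; ring

/-- Main estimate: no covering by centres in `ℂ` when the spacing lies in `(2/√17, 243/500]`. -/
lemma not_cover {d : ℝ} (hd0 : 0 < d) (hd1 : 4 < 17 * d ^ 2) (hd2 : d ≤ 243 / 500) (C : Set ℂ)
    (hC : ∀ x ∈ C, ∀ y ∈ C, x ≠ y → 2 ≤ dist x y)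
    (hcov : ∀ a b : ℤ, ∃ c ∈ C, dist (⟨d * a, d * b⟩ : ℂ) c ≤ 1) : False := by
  choose f hfC hf using hcov
  -- the set of used centres
  obtain ⟨N, hN⟩ : ∃ N : ℕ, N = 10000 := ⟨_, rfl⟩
  have hNr : (N : ℝ) = 10000 := by rw [hN]; norm_num
  clear hN
  set B : Finset (ℤ × ℤ) := Finset.Icc (-(N : ℤ)) N ×ˢ Finset.Icc (-(N : ℤ)) N with hB
  have hBcard : B.card = (2 * N + 1) * (2 * N + 1) := by
    rw [hB, Finset.card_product, Int.card_Icc]
    have : ((N : ℤ) + 1 - -(N : ℤ)).toNat = 2 * N + 1 := by omega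
    rw [this]
  set g : ℤ × ℤ → ℂ := fun p => f p.1 p.2 with hg
  set I : Finset ℂ := B.image g with hI
  have hfib : ∀ c ∈ I, (B.filter fun p => g p = c).card ≤ 14 := by
    intro c _
    apply card_le_14 (c.re / d) (c.im / d)
    intro p hp
    rw [Finset.mem_filter] at hp
    have h := hf p.1 p.2
    rw [show f p.1 p.2 = c from hp.2, Complex.dist_eq] at h
    have h2 : ‖(⟨d * p.1, d * p.2⟩ : ℂ) - c‖ ^ 2 ≤ 1 ^ 2 := by gcongr
    rw [← Complex.normSq_eq_norm_sq, Complex.normSq_apply] at h2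
    simp only [Complex.sub_re, Complex.sub_im] at h2
    have e : (((p.1 : ℝ) - c.re / d) ^ 2 + ((p.2 : ℝ) - c.im / d) ^ 2) * d ^ 2 =
        (d * p.1 - c.re) * (d * p.1 - c.re) + (d * p.2 - c.im) * (d * p.2 - c.im) := by
      field_simp
    by_contra hcon
    push Not at hcon
    have h3 : 17 / 4 * d ^ 2 ≤ (((p.1 : ℝ) - c.re / d) ^ 2 + ((p.2 : ℝ) - c.im / d) ^ 2) * d ^ 2 :=
      mul_le_mul_of_nonneg_right hcon (by positivity)
    rw [e] at h3
    linarith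
  have hcount : B.card ≤ 14 * I.card := Finset.card_le_mul_card_image B 14 hfib
  rw [hBcard] at hcount
  have hIC : ∀ c ∈ I, c ∈ C := by
    intro c hc
    obtain ⟨p, _, rfl⟩ := Finset.mem_image.mp hc
    exact hfC _ _
  -- the cells lie in a box
  set M : ℝ := N * (243 / 500) + 25 / 12 with hM
  have hsub : (⋃ c ∈ I, cell C c) ⊆ box M := by
    intro z hz
    simp only [Set.mem_iUnion] at hz
    obtain ⟨c, hc, hz⟩ := hz
    obtain ⟨p, hp, rfl⟩ := Finset.mem_image.mp hc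
    have h1 : dist z (g p) ≤ 13 / 12 := hz.1
    have h2 := hf p.1 p.2
    have h3 : ‖z - (⟨d * p.1, d * p.2⟩ : ℂ)‖ ≤ 25 / 12 := by
      rw [← Complex.dist_eq]
      have := dist_triangle_right z (⟨d * p.1, d * p.2⟩ : ℂ) (g p)
      have h2' : dist (⟨d * p.1, d * p.2⟩ : ℂ) (g p) ≤ 1 := h2
      linarith
    rw [hB, Finset.mem_product, Finset.mem_Icc, Finset.mem_Icc] at hp
    have hp1 : |(p.1 : ℝ)| ≤ N := by
      rw [abs_le]; constructor
      · exact_mod_cast hp.1.1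
      · exact_mod_cast hp.1.2
    have hp2 : |(p.2 : ℝ)| ≤ N := by
      rw [abs_le]; constructor
      · exact_mod_cast hp.2.1
      · exact_mod_cast hp.2.2
    have h4 : |z.re - d * p.1| ≤ 25 / 12 := le_trans (by
      simpa using Complex.abs_re_le_norm (z - (⟨d * p.1, d * p.2⟩ : ℂ))) h3
    have h5 : |z.im - d * p.2| ≤ 25 / 12 := le_trans (by
      simpa using Complex.abs_im_le_norm (z - (⟨d * p.1, d * p.2⟩ : ℂ))) h3
    have h6 : |d * (p.1 : ℝ)| ≤ N * (243 / 500) := by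
      rw [abs_mul, abs_of_pos hd0]
      nlinarith [abs_nonneg (p.1 : ℝ)]
    have h7 : |d * (p.2 : ℝ)| ≤ N * (243 / 500) := by
      rw [abs_mul, abs_of_pos hd0]
      nlinarith [abs_nonneg (p.2 : ℝ)]
    constructor
    · have := abs_add_le (z.re - d * p.1) (d * p.1)
      rw [sub_add_cancel] at this
      rw [hM]; linarith
    · have := abs_add_le (z.im - d * p.2) (d * p.2)
      rw [sub_add_cancel] at this
      rw [hM]; linarith
  have hvol : ENNReal.ofReal (I.card * (663 / 200)) ≤ ENNReal.ofReal ((2 * M) ^ 2) := by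
    calc ENNReal.ofReal (I.card * (663 / 200)) = ∑ c ∈ I, ENNReal.ofReal (663 / 200) := by
          rw [Finset.sum_const, nsmul_eq_mul, ENNReal.ofReal_mul (by positivity),
            ENNReal.ofReal_natCast]
      _ ≤ ∑ c ∈ I, volume (cell C c) := by
          apply Finset.sum_le_sum
          intro c hc
          exact (cell_volume hC (hIC c hc)).le
      _ = volume (⋃ c ∈ I, cell C c) := by
          rw [measure_biUnion_finset]
          · intro x hx y hy hne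
            exact cell_disjoint (hIC x hx) (hIC y hy) hne
          · intro c hc
            exact measurableSet_cell hC (hIC c hc)
      _ ≤ volume (box M) := measure_mono hsub
      _ = _ := volume_box (by rw [hM]; positivity)
  rw [ENNReal.ofReal_le_ofReal_iff (by positivity)] at hvol
  have hcount' : ((2 * (N : ℝ) + 1) * (2 * N + 1) : ℝ) ≤ 14 * I.card := by exact_mod_cast hcount
  rw [hM, hNr] at hvol
  rw [hNr] at hcount'
  norm_num at hvol hcount'
  linarith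

/-! ### The coverable spacing `2/√17` -/

lemma min_dist (p q : ℤ) (h : (15 : ℤ) ∣ q - 4 * p) (hne : ¬ (p = 0 ∧ q = 0)) :
    17 ≤ p ^ 2 + q ^ 2 := by
  by_contra hcon
  push Not at hcon
  have hp1 : p ≤ 4 := by nlinarith [sq_nonneg q]
  have hp2 : -4 ≤ p := by nlinarith [sq_nonneg q]
  have hq1 : q ≤ 4 := by nlinarith [sq_nonneg p]
  have hq2 : -4 ≤ q := by nlinarith [sq_nonneg p]
  interval_cases p <;> interval_cases q <;> omega

lemma offsets (x y : ℤ) : ∃ i j : ℤ, (15 : ℤ) ∣ (y - j) - 4 * (x - i) ∧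
    ((i : ℝ)) ^ 2 + ((j : ℝ) - 1 / 2) ^ 2 ≤ 17 / 4 := by
  have hr : (y - 4 * x) % 15 = 0 ∨ (y - 4 * x) % 15 = 1 ∨ (y - 4 * x) % 15 = 2 ∨
    (y - 4 * x) % 15 = 3 ∨ (y - 4 * x) % 15 = 4 ∨ (y - 4 * x) % 15 = 5 ∨ (y - 4 * x) % 15 = 6 ∨
    (y - 4 * x) % 15 = 7 ∨ (y - 4 * x) % 15 = 8 ∨ (y - 4 * x) % 15 = 9 ∨ (y - 4 * x) % 15 = 10 ∨
    (y - 4 * x) % 15 = 11 ∨ (y - 4 * x) % 15 = 12 ∨ (y - 4 * x) % 15 = 13 ∨
    (y - 4 * x) % 15 = 14 := by omega
  rcases hr with h | h | h | h | h | h | h | h | h | h | h | h | h | h | h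
  · exact ⟨0, 0, by omega, by norm_num⟩
  · exact ⟨0, 1, by omega, by norm_num⟩
  · exact ⟨0, 2, by omega, by norm_num⟩
  · exact ⟨-1, -1, by omega, by norm_num⟩
  · exact ⟨-1, 0, by omega, by norm_num⟩
  · exact ⟨-1, 1, by omega, by norm_num⟩
  · exact ⟨-1, 2, by omega, by norm_num⟩
  · exact ⟨2, 0, by omega, by norm_num⟩
  · exact ⟨-2, 0, by omega, by norm_num⟩
  · exact ⟨-2, 1, by omega, by norm_num⟩
  · exact ⟨1, -1, by omega, by norm_num⟩
  · exact ⟨1, 0, by omega, by norm_num⟩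
  · exact ⟨1, 1, by omega, by norm_num⟩
  · exact ⟨1, 2, by omega, by norm_num⟩
  · exact ⟨0, -1, by omega, by norm_num⟩

lemma dist_sq (a b a' b' : ℝ) :
    dist (!₂[a, b] : EuclideanSpace ℝ (Fin 2)) !₂[a', b'] = √((a - a') ^ 2 + (b - b') ^ 2) := by
  rw [EuclideanSpace.dist_eq]
  simp [Real.dist_eq, sq_abs]

lemma coverable_d1 : Coverable (2 / √17) := by
  have h17 : (√17 : ℝ) ^ 2 = 17 := Real.sq_sqrt (by norm_num)
  have hd : (2 / √17 : ℝ) ^ 2 = 4 / 17 := by rw [div_pow, h17]; norm_num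
  set d : ℝ := 2 / √17 with hdd
  refine ⟨{c | ∃ x y : ℤ, (15 : ℤ) ∣ y - 4 * x ∧ c = !₂[d * x, d * (y + 1 / 2)]}, ?_, ?_⟩
  · rintro _ ⟨x, y, hxy, rfl⟩ _ ⟨x', y', hxy', rfl⟩ hne
    rw [disjoint_iff, dist_sq]
    apply Real.le_sqrt_of_sq_le
    have hne' : ¬ (x - x' = 0 ∧ y - y' = 0) := by
      rintro ⟨h1, h2⟩
      apply hne
      rw [show x = x' by omega, show y = y' by omega]
    have h := min_dist (x - x') (y - y') (by omega) hne'
    have h' : (17 : ℝ) ≤ ((x : ℝ) - x') ^ 2 + ((y : ℝ) - y') ^ 2 := by exact_mod_cast h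
    have e : (d * x - d * x') ^ 2 + (d * (y + 1 / 2) - d * (y' + 1 / 2)) ^ 2 =
        d ^ 2 * (((x : ℝ) - x') ^ 2 + ((y : ℝ) - y') ^ 2) := by ring
    rw [e, hd]
    linarith
  · rintro _ ⟨a, b, rfl⟩
    obtain ⟨i, j, hdiv, hle⟩ := offsets a b
    refine ⟨!₂[d * ((a - i : ℤ) : ℝ), d * (((b - j : ℤ) : ℝ) + 1 / 2)], ⟨a - i, b - j, hdiv, rfl⟩, ?_⟩
    rw [mem_closedBall, dist_sq]
    rw [Real.sqrt_le_left (by norm_num)]
    push_cast
    have e : (d * a - d * ((a : ℝ) - i)) ^ 2 + (d * b - d * ((b : ℝ) - j + 1 / 2)) ^ 2 =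
        d ^ 2 * ((i : ℝ) ^ 2 + ((j : ℝ) - 1 / 2) ^ 2) := by ring
    rw [e, hd]
    linarith

lemma coverable_two : Coverable 2 := by
  refine ⟨squareLattice 2, ?_, fun p hp => ⟨p, hp, mem_closedBall_self (by norm_num)⟩⟩
  rintro _ ⟨x, y, rfl⟩ _ ⟨x', y', rfl⟩ hne
  rw [disjoint_iff, dist_sq]
  apply Real.le_sqrt_of_sq_le
  have hne' : ¬ (x - x' = 0 ∧ y - y' = 0) := by
    rintro ⟨h1, h2⟩
    apply hne
    rw [show x = x' by omega, show y = y' by omega]
  have h : 1 ≤ (x - x') ^ 2 + (y - y') ^ 2 := by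
    by_contra hcon
    apply hne'
    constructor
    · nlinarith [sq_nonneg (x - x'), sq_nonneg (y - y')]
    · nlinarith [sq_nonneg (x - x'), sq_nonneg (y - y')]
  have h' : (1 : ℝ) ≤ ((x : ℝ) - x') ^ 2 + ((y : ℝ) - y') ^ 2 := by exact_mod_cast h
  nlinarith

lemma not_coverable {d : ℝ} (hd1 : 2 / √17 < d) (hd2 : d ≤ 243 / 500) : ¬ Coverable d := by
  rintro ⟨C, hdisj, hcov⟩
  have h17 : (√17 : ℝ) ^ 2 = 17 := Real.sq_sqrt (by norm_num)
  have hpos : (0 : ℝ) < 2 / √17 := by positivity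
  have hd0 : 0 < d := lt_trans hpos hd1
  have hd17 : 4 < 17 * d ^ 2 := by
    have h : (2 / √17 : ℝ) ^ 2 < d ^ 2 := by gcongr
    rw [div_pow, h17] at h
    linarith
  have hdistC : ∀ x y : EuclideanSpace ℝ (Fin 2),
      dist (⟨x 0, x 1⟩ : ℂ) (⟨y 0, y 1⟩ : ℂ) = dist x y := by
    intro x y
    rw [Complex.dist_eq_re_im, EuclideanSpace.dist_eq, Fin.sum_univ_two, Real.dist_eq,
      Real.dist_eq, sq_abs, sq_abs]
  refine not_cover hd0 hd17 hd2 ((fun x : EuclideanSpace ℝ (Fin 2) => (⟨x 0, x 1⟩ : ℂ)) '' C) ?_ ?_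
  · rintro _ ⟨x, hx, rfl⟩ _ ⟨y, hy, rfl⟩ hne
    have hxy : x ≠ y := fun h => hne (by rw [h])
    have := (disjoint_iff x y).1 (hdisj x hx y hy hxy)
    simp only [hdistC]
    exact this
  · intro a b
    obtain ⟨c, hc, hcb⟩ := hcov !₂[d * (a : ℝ), d * (b : ℝ)] ⟨a, b, rfl⟩
    refine ⟨_, ⟨c, hc, rfl⟩, ?_⟩
    have h := hdistC !₂[d * (a : ℝ), d * (b : ℝ)] c
    have e : (⟨(!₂[d * (a : ℝ), d * (b : ℝ)] : EuclideanSpace ℝ (Fin 2)) 0,
      (!₂[d * (a : ℝ), d * (b : ℝ)] : EuclideanSpace ℝ (Fin 2)) 1⟩ : ℂ) =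
      (⟨d * a, d * b⟩ : ℂ) := by simp
    rw [e] at h
    simp only [h]
    exact hcb

/-- The set `C` of the coverable spacings `d > 0`. -/
def coverableSpacings : Set ℝ := {d | 0 < d ∧ Coverable d}

/-- **The set of the coverable spacings is not an interval**: `2/√17` and `2` are coverable, but
no `d` with `2/√17 < d ≤ 243/500` is. -/
theorem result :
    (¬ ∀ x ∈ coverableSpacings, ∀ z ∈ coverableSpacings, ∀ y : ℝ, x < y → y < z →
      y ∈ coverableSpacings) ∧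
    2 / √17 ∈ coverableSpacings ∧ 2 ∈ coverableSpacings ∧
    (2 / √17 : ℝ) < 243 / 500 ∧
    ∀ d : ℝ, 2 / √17 < d → d ≤ 243 / 500 → d ∉ coverableSpacings := by
  have h1 : 2 / √17 ∈ coverableSpacings := ⟨by positivity, coverable_d1⟩
  have h2 : (2 : ℝ) ∈ coverableSpacings := ⟨by norm_num, coverable_two⟩
  have hlt : (2 / √17 : ℝ) < 243 / 500 := by
    rw [div_lt_iff₀ (by positivity)]
    have : (1000 / 243 : ℝ) < √17 := by
      apply Real.lt_sqrt_of_sq_lt; norm_num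
    linarith
  have h3 : ∀ d : ℝ, 2 / √17 < d → d ≤ 243 / 500 → d ∉ coverableSpacings :=
    fun d hd hd' hmem => not_coverable hd hd' hmem.2
  refine ⟨?_, h1, h2, hlt, h3⟩
  intro hall
  exact h3 (243 / 500) hlt le_rfl (hall _ h1 _ h2 (243 / 500) hlt (by norm_num))

end Pool.Agent.Results.MP_bcdb6f_co.NotInterval
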